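import Pool.Agent.Run7.h13.Pol

/-!
# Deciding whether the circular bundled crossing number is at most `k` is NP-hard

The reduction from 3SAT: every literal occurrence gives an octagon and a square of terminals, every
terminal gives a triangle with one pendant vertex, and an apex vertex is joined to all others.  With
`N` literal occurrences the resulting graph has circular bundled crossing number at most `18 N`
exactly if the formula is satisfiable.

Lower bound: for a simple circular layout with a bundling into `k` parts, the matrix which records
which edges cross which edges at the apex is a sum of `k` blocks, so its rank is at most `k`; an
order of the other vertices attaining the rank bound has a very restricted form, which yields a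
state of the switches joining all terminals in one alternating cycle.

Upper bound: the crossings of a suitable straight-line layout are assigned to the edges joining
vertices at distance at least two in the order, and the crossings assigned to one edge form a
bundled crossing.
-/

namespace Pool.Agent.Results.MP_b99905_lc.BCNPHard

open Pool.Agent.NPC Pool.Agent.Run7.h13

/-- **Problem BC is NP-hard.**  Given a graph `G` and a natural number `k`, it is NP-hard (under
polynomial-time many-one reductions) to decide whether `bc°(G) ≤ k`. -/
theorem result : NPHardP BC := Pool.Agent.NPC.H13BC.npHardP_BC

end Pool.Agent.Results.MP_b99905_lc.BCNPHard
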